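import Pool.Agent.Y504.CO.Stm

/-!
Part BIF of project CO (helper504); proof by helper329.
-/

set_option autoImplicit false
set_option synthInstance.maxHeartbeats 400000
set_option maxHeartbeats 4000000

open scoped Topology
open Filter Set Metric

namespace Pool.Agent.Y329.CO.BIF

open Pool.Agent.H718R2.G Pool.Agent.Y504.CO

section fam

variable {E E' E'' : Type} [NormedAddCommGroup E] [NormedSpace ℝ E]
  [NormedAddCommGroup E'] [NormedSpace ℝ E'] [NormedAddCommGroup E''] [NormedSpace ℝ E'']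

/-- a family which is jointly continuous at `(0, x)` together with its derivative -/
structure Good (F : ℝ → E → E') (F' : ℝ → E → (E →L[ℝ] E')) (x : E) : Prop where
  c0 : ContinuousAt (fun p : ℝ × E => F p.1 p.2) (0, x)
  c1 : ContinuousAt (fun p : ℝ × E => F' p.1 p.2) (0, x)
  d : ∀ᶠ p : ℝ × E in 𝓝 (0, x), HasFDerivAt (F p.1) (F' p.1 p.2) p.2

theorem Good.comp {F : ℝ → E → E'} {F' : ℝ → E → (E →L[ℝ] E')} {G : ℝ → E' → E''}
    {G' : ℝ → E' → (E' →L[ℝ] E'')} {x : E} (hF : Good F F' x) (hG : Good G G' (F 0 x)) :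
    Good (fun ρ z => G ρ (F ρ z)) (fun ρ z => (G' ρ (F ρ z)) ∘L (F' ρ z)) x := by
  have h1 : ContinuousAt (fun p : ℝ × E => (p.1, F p.1 p.2)) (0, x) :=
    continuousAt_fst.prodMk hF.c0
  refine ⟨?_, ?_, ?_⟩
  · exact ContinuousAt.comp_of_eq (g := fun p : ℝ × E' => G p.1 p.2) hG.c0 h1 rfl
  · have h2 : ContinuousAt (fun p : ℝ × E => G' p.1 (F p.1 p.2)) (0, x) :=
      ContinuousAt.comp_of_eq (g := fun p : ℝ × E' => G' p.1 p.2) hG.c1 h1 rfl
    exact h2.clm_comp hF.c1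
  · have h3 := h1.eventually hG.d
    filter_upwards [h3, hF.d] with p hp1 hp2
    exact hp1.comp p.2 hp2

theorem Good.const {F : E → E'} {F' : E → (E →L[ℝ] E')} (h : ∀ x, HasFDerivAt F (F' x) x)
    (hc : Continuous F') (x : E) : Good (fun _ => F) (fun _ => F') x := by
  have hF : Continuous F := continuous_iff_continuousAt.2 fun y => (h y).continuousAt
  refine ⟨(hF.comp continuous_snd).continuousAt, (hc.comp continuous_snd).continuousAt, ?_⟩
  exact Eventually.of_forall fun p => h p.2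

/-- iterates of a family -/
def It (N : ℝ → E → E) (i : ℕ) (ρ : ℝ) : E → E := (N ρ)^[i]

/-- derivative of the iterates -/
noncomputable def It' (N : ℝ → E → E) (N' : ℝ → E → (E →L[ℝ] E)) : ℕ → ℝ → E → (E →L[ℝ] E)
  | 0, _, _ => ContinuousLinearMap.id ℝ E
  | i + 1, ρ, z => (N' ρ (It N i ρ z)) ∘L (It' N N' i ρ z)

theorem It_good {N : ℝ → E → E} {N' : ℝ → E → (E →L[ℝ] E)} (h : ∀ z, Good N N' z) (z : E) :
    ∀ i, Good (It N i) (It' N N' i) z := by
  intro i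
  induction i with
  | zero =>
    have : Good (fun (_ : ℝ) (z : E) => z) (fun _ _ => ContinuousLinearMap.id ℝ E) z :=
      Good.const (F := fun z : E => z) (F' := fun _ => ContinuousLinearMap.id ℝ E)
        (fun x => hasFDerivAt_id x) continuous_const z
    exact this
  | succ i ih =>
    have h1 := Good.comp ih (h (It N i 0 z))
    have e : It N (i + 1) = fun ρ z => N ρ (It N i ρ z) := by
      funext ρ z
      simp only [It, Function.iterate_succ_apply']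
    have e' : It' N N' (i + 1) = fun ρ z => (N' ρ (It N i ρ z)) ∘L (It' N N' i ρ z) := by
      funext ρ z
      rfl
    rw [e, e']
    exact h1

end fam

theorem final (hNW : S_NW) {E₁ E₂ : Type} [NormedAddCommGroup E₁] [NormedSpace ℝ E₁]
    [FiniteDimensional ℝ E₁] [NormedAddCommGroup E₂] [NormedSpace ℝ E₂] [FiniteDimensional ℝ E₂]
    (hdim : Module.finrank ℝ E₁ = Module.finrank ℝ E₂) {K : ℝ → E₁ → E₂}
    {K' : ℝ → E₁ → (E₁ →L[ℝ] E₂)} (hK : Good K K' 0) (h00 : K 0 0 = 0)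
    (hinj : LinearMap.ker (K' 0 0 : E₁ →ₗ[ℝ] E₂) = ⊥) {P : ℝ → E₁ → Prop}
    (hP : ∀ᶠ q : ℝ × E₁ in 𝓝 (0, 0), P q.1 q.2) {ε : ℝ} (hε : 0 < ε) :
    ∃ (ρ : ℝ) (x : E₁), 0 < ρ ∧ ρ < ε ∧ ‖x‖ < ε ∧ K ρ x = 0 ∧ P ρ x := by
  set L : E₁ →L[ℝ] E₂ := K' 0 0 with hL
  obtain ⟨κ, hκ0, hκ⟩ := LinearMap.exists_antilipschitzWith _ hinj
  set c : ℝ := (κ : ℝ)⁻¹ with hc
  have hκp : (0 : ℝ) < κ := by exact_mod_cast hκ0
  have hc0 : 0 < c := inv_pos.2 hκp
  have hcL : ∀ v, c * ‖v‖ ≤ ‖L v‖ := by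
    intro v
    have := hκ.le_mul_dist v 0
    rw [map_zero, dist_zero_right, dist_zero_right] at this
    rw [hc, inv_mul_le_iff₀ hκp]
    exact this
  have hcont' : ∀ᶠ q : ℝ × E₁ in 𝓝 (0, 0), ‖K' q.1 q.2 - L‖ < c / 2 := by
    have h1 : ContinuousAt (fun q : ℝ × E₁ => ‖K' q.1 q.2 - L‖) (0, 0) :=
      (hK.c1.sub continuousAt_const).norm
    have h2 : (fun q : ℝ × E₁ => ‖K' q.1 q.2 - L‖) (0, 0) < c / 2 := by
      simp only [hL, sub_self, norm_zero]; positivity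
    exact h1.eventually_lt continuousAt_const h2
  obtain ⟨δ, hδ, hball⟩ := Metric.eventually_nhds_iff.1 ((hK.d.and hcont').and hP)
  set r : ℝ := min (δ / 2) (ε / 2) with hr
  have hr0 : 0 < r := lt_min (by positivity) (by positivity)
  have hKr : ∀ᶠ ρ : ℝ in 𝓝 0, ‖K ρ 0‖ < c / 2 * r := by
    have h1 : ContinuousAt (fun ρ : ℝ => (ρ, (0 : E₁))) 0 :=
      (continuous_id.prodMk continuous_const).continuousAt
    have h2 : ContinuousAt (fun ρ : ℝ => ‖K ρ 0‖) 0 :=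
      (ContinuousAt.comp_of_eq hK.c0 h1 rfl).norm
    have h3 : (fun ρ : ℝ => ‖K ρ 0‖) 0 < c / 2 * r := by
      simp only [h00, norm_zero]; positivity
    exact h2.eventually_lt continuousAt_const h3
  obtain ⟨δ₂, hδ₂, hball₂⟩ := Metric.eventually_nhds_iff.1 hKr
  set ρ : ℝ := min (min (δ / 2) (δ₂ / 2)) (ε / 2) with hρ
  have hρ0 : 0 < ρ := lt_min (lt_min (by positivity) (by positivity)) (by positivity)
  have hρδ : ρ < δ := (min_le_left _ _).trans_lt ((min_le_left _ _).trans_lt (by linarith))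
  have hρδ₂ : ρ < δ₂ := (min_le_left _ _).trans_lt ((min_le_right _ _).trans_lt (by linarith))
  have hρε : ρ < ε := (min_le_right _ _).trans_lt (by linarith)
  have hin : ∀ x ∈ closedBall (0 : E₁) r, dist (ρ, x) ((0 : ℝ), (0 : E₁)) < δ := by
    intro x hx
    rw [mem_closedBall] at hx
    rw [Prod.dist_eq]
    apply max_lt
    · simp only [dist_zero_right, Real.norm_eq_abs, abs_of_pos hρ0]
      exact hρδ
    · exact (hx.trans (min_le_left _ _)).trans_lt (by linarith)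
  obtain ⟨x, hx, hzero⟩ := hNW E₁ E₂ hdim (K ρ) (K' ρ) 0 L
    c r hc0 hr0 hcL (fun x hx => (hball (hin x hx)).1.1) (fun x hx => (hball (hin x hx)).1.2.le)
    (hball₂ (by rw [dist_zero_right, Real.norm_eq_abs, abs_of_pos hρ0]; exact hρδ₂)).le
  refine ⟨ρ, x, hρ0, hρε, ?_, hzero, (hball (hin x hx)).2⟩
  rw [mem_closedBall, dist_zero_right] at hx
  exact (hx.trans (min_le_right _ _)).trans_lt (by linarith)

/-- the rescaled map -/
noncomputable def RR {E : Type} [NormedAddCommGroup E] [NormedSpace ℝ E] (R : E → E) (ρ : ℝ)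
    (v : E) : E := if ρ = 0 then fderiv ℝ R 0 v else ρ⁻¹ • R (ρ • v)

noncomputable def RR' {E : Type} [NormedAddCommGroup E] [NormedSpace ℝ E] (R : E → E) (ρ : ℝ)
    (v : E) : E →L[ℝ] E := fderiv ℝ R (ρ • v)

theorem RR_good {E : Type} [NormedAddCommGroup E] [NormedSpace ℝ E] {R : E → E} (h0 : R 0 = 0)
    (h1 : ContDiffAt ℝ 1 R 0) (x : E) : Good (RR R) (RR' R) x := by
  have hs : Tendsto (fun p : ℝ × E => p.1 • p.2) (𝓝 (0, x)) (𝓝 0) := by
    have : ContinuousAt (fun p : ℝ × E => p.1 • p.2) (0, x) :=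
      (continuous_fst.smul continuous_snd).continuousAt
    have h2 := this.tendsto
    simpa using h2
  have hdiff : DifferentiableAt ℝ R 0 := h1.differentiableAt (by norm_num)
  refine ⟨?_, ?_, ?_⟩
  · -- continuity of the function
    have hA : ContinuousAt (fun p : ℝ × E => fderiv ℝ R 0 p.2) (0, x) :=
      ((fderiv ℝ R 0).continuous.comp continuous_snd).continuousAt
    rw [Metric.continuousAt_iff'] at hA ⊢
    intro ε hε
    have hx : 0 < ‖x‖ + 1 := by positivity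
    set η : ℝ := ε / 2 / (‖x‖ + 1) with hη
    have hη0 : 0 < η := by positivity
    have hd := hdiff.hasFDerivAt.isLittleO
    have hd2 := hs.eventually ((Asymptotics.isLittleO_iff.1 hd) hη0)
    have hn : ∀ᶠ p : ℝ × E in 𝓝 (0, x), ‖p.2‖ < ‖x‖ + 1 := by
      have : ContinuousAt (fun p : ℝ × E => ‖p.2‖) (0, x) := continuous_snd.norm.continuousAt
      have h3 := this.tendsto.eventually (Iio_mem_nhds (show ‖(0, x).2‖ < ‖x‖ + 1 by simp))
      exact h3
    filter_upwards [hA (ε / 2) (by positivity), hd2, hn] with p hp1 hp2 hp3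
    have e0 : RR R 0 x = fderiv ℝ R 0 x := by simp [RR]
    simp only [e0]
    have key : ‖RR R p.1 p.2 - fderiv ℝ R 0 p.2‖ ≤ ε / 2 := by
      by_cases hρ : p.1 = 0
      · simp only [RR, hρ, if_true, sub_self, norm_zero]
        positivity
      · simp only [RR, hρ, if_false]
        rw [h0, sub_zero, sub_zero, map_smul] at hp2
        have e1 : p.1⁻¹ • R (p.1 • p.2) - fderiv ℝ R 0 p.2 =
            p.1⁻¹ • (R (p.1 • p.2) - p.1 • fderiv ℝ R 0 p.2) := by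
          rw [smul_sub, smul_smul, inv_mul_cancel₀ hρ, one_smul]
        rw [e1, norm_smul, norm_inv]
        have hp : 0 < ‖p.1‖ := norm_pos_iff.2 hρ
        rw [inv_mul_le_iff₀ hp]
        refine hp2.trans ?_
        rw [norm_smul]
        have : η * ‖p.2‖ ≤ ε / 2 := by
          calc η * ‖p.2‖ ≤ η * (‖x‖ + 1) := mul_le_mul_of_nonneg_left hp3.le hη0.le
            _ = ε / 2 := by rw [hη]; field_simp
        calc η * (‖p.1‖ * ‖p.2‖) = ‖p.1‖ * (η * ‖p.2‖) := by ring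
          _ ≤ ‖p.1‖ * (ε / 2) := mul_le_mul_of_nonneg_left this hp.le
    calc dist (RR R p.1 p.2) (fderiv ℝ R 0 x)
        ≤ dist (RR R p.1 p.2) (fderiv ℝ R 0 p.2) + dist (fderiv ℝ R 0 p.2) (fderiv ℝ R 0 x) :=
          dist_triangle _ _ _
      _ < ε / 2 + ε / 2 := by
          rw [dist_eq_norm (RR R p.1 p.2)]
          exact add_lt_add_of_le_of_lt key hp1
      _ = ε := by ring
  · have hc : ContinuousAt (fderiv ℝ R) 0 := (h1.fderiv_right (m := 0) (by norm_num)).continuousAt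
    unfold RR'
    have : Tendsto (fun p : ℝ × E => fderiv ℝ R (p.1 • p.2)) (𝓝 (0, x)) (𝓝 (fderiv ℝ R 0)) :=
      hc.tendsto.comp hs
    unfold ContinuousAt
    simpa using this
  · have hev : ∀ᶠ v in 𝓝 (0 : E), DifferentiableAt ℝ R v := by
      have h2 := h1.eventually (by simp)
      filter_upwards [h2] with v hv
      exact hv.differentiableAt (by norm_num)
    filter_upwards [hs.eventually hev] with p hp
    by_cases hρ : p.1 = 0
    · have e1 : RR R p.1 = fun v => fderiv ℝ R 0 v := by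
        funext v; simp [RR, hρ]
      have e2 : RR' R p.1 p.2 = fderiv ℝ R 0 := by simp [RR', hρ]
      rw [e1, e2]
      exact (fderiv ℝ R 0).hasFDerivAt
    · have e1 : RR R p.1 = fun v => p.1⁻¹ • R (p.1 • v) := by
        funext v; simp [RR, hρ]
      rw [e1]
      have h3 : HasFDerivAt (fun v : E => p.1 • v) (p.1 • ContinuousLinearMap.id ℝ E) p.2 :=
        (hasFDerivAt_id p.2).const_smul p.1
      have h4 := (hp.hasFDerivAt.comp p.2 h3).const_smul p.1⁻¹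
      have e3 : p.1⁻¹ • (fderiv ℝ R (p.1 • p.2) ∘L (p.1 • ContinuousLinearMap.id ℝ E)) =
          RR' R p.1 p.2 := by
        ext v
        simp [RR', smul_smul, inv_mul_cancel₀ hρ]
      rw [e3] at h4
      exact h4

section main

variable {n j : ℕ}

/-- the map `v + S z v` and its derivative -/
noncomputable def SS (𝒮 : V j →L[ℝ] (V n →L[ℝ] V n)) (z : V n × V j) : V n := z.1 + 𝒮 z.2 z.1

noncomputable def SS' (𝒮 : V j →L[ℝ] (V n →L[ℝ] V n)) (z : V n × V j) : V n × V j →L[ℝ] V n :=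
  ContinuousLinearMap.fst ℝ (V n) (V j) +
    ((𝒮 z.2) ∘L ContinuousLinearMap.fst ℝ (V n) (V j) +
      (𝒮.flip z.1) ∘L ContinuousLinearMap.snd ℝ (V n) (V j))

theorem SS_deriv (𝒮 : V j →L[ℝ] (V n →L[ℝ] V n)) (z : V n × V j) :
    HasFDerivAt (SS 𝒮) (SS' 𝒮 z) z := by
  have h1 : HasFDerivAt (fun z : V n × V j => z.1) (ContinuousLinearMap.fst ℝ (V n) (V j)) z :=
    hasFDerivAt_fst
  have h2 : HasFDerivAt (fun z : V n × V j => 𝒮 z.2)
      (𝒮 ∘L ContinuousLinearMap.snd ℝ (V n) (V j)) z :=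
    𝒮.hasFDerivAt.comp z hasFDerivAt_snd
  have h3 := h2.clm_apply h1
  have h4 : HasFDerivAt (SS 𝒮) _ z := h1.add h3
  refine h4.congr_fderiv ?_
  ext x <;> simp [SS']

theorem SS'_cont (𝒮 : V j →L[ℝ] (V n →L[ℝ] V n)) : Continuous (SS' 𝒮) := by
  unfold SS'
  refine continuous_const.add (Continuous.add ?_ ?_)
  · exact (𝒮.continuous.comp continuous_snd).clm_comp continuous_const
  · exact (𝒮.flip.continuous.comp continuous_fst).clm_comp continuous_const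

/-- the family on `V n × V j` -/
noncomputable def NN (R : V n → V n) (𝒮 : V j →L[ℝ] (V n →L[ℝ] V n)) (ρ : ℝ) (z : V n × V j) :
    V n × V j := (RR R ρ (SS 𝒮 z), z.2)

noncomputable def NN' (R : V n → V n) (𝒮 : V j →L[ℝ] (V n →L[ℝ] V n)) (ρ : ℝ) (z : V n × V j) :
    V n × V j →L[ℝ] V n × V j :=
  (ContinuousLinearMap.inl ℝ (V n) (V j)) ∘L ((RR' R ρ (SS 𝒮 z)) ∘L (SS' 𝒮 z)) +
    (ContinuousLinearMap.inr ℝ (V n) (V j)) ∘L (ContinuousLinearMap.snd ℝ (V n) (V j))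

theorem NN_good {R : V n → V n} (h0 : R 0 = 0) (h1 : ContDiffAt ℝ 1 R 0)
    (𝒮 : V j →L[ℝ] (V n →L[ℝ] V n)) (z : V n × V j) : Good (NN R 𝒮) (NN' R 𝒮) z := by
  have hS := Good.const (SS_deriv 𝒮) (SS'_cont 𝒮) z
  have hg := hS.comp (RR_good h0 h1 (SS 𝒮 z))
  refine ⟨?_, ?_, ?_⟩
  · exact hg.c0.prodMk ((continuous_snd.comp continuous_snd).continuousAt)
  · exact (continuousAt_const.clm_comp hg.c1).add continuousAt_const
  · filter_upwards [hg.d] with p hp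
    have h4 : HasFDerivAt (NN R 𝒮 p.1) _ p.2 := hp.prodMk hasFDerivAt_snd
    refine h4.congr_fderiv ?_
    ext x <;> simp [NN']

theorem NN_zero (R : V n → V n) (𝒮 : V j →L[ℝ] (V n →L[ℝ] V n)) (x : V n) :
    NN R 𝒮 0 (x, 0) = (fderiv ℝ R 0 x, 0) := by
  simp [NN, RR, SS]

theorem NN'_zero (R : V n → V n) (𝒮 : V j →L[ℝ] (V n →L[ℝ] V n)) (x a : V n) (η : V j) :
    NN' R 𝒮 0 (x, 0) (a, η) = (fderiv ℝ R 0 (a + 𝒮 η x), η) := by
  simp [NN', RR', SS']

theorem It_zero (R : V n → V n) (𝒮 : V j →L[ℝ] (V n →L[ℝ] V n)) (w₀ : V n) (i : ℕ) :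
    It (NN R 𝒮) i 0 (w₀, 0) = ((fderiv ℝ R 0)^[i] w₀, 0) := by
  induction i with
  | zero => rfl
  | succ i ih =>
    have : It (NN R 𝒮) (i + 1) 0 (w₀, 0) = NN R 𝒮 0 (It (NN R 𝒮) i 0 (w₀, 0)) := by
      simp only [It, Function.iterate_succ_apply']
    rw [this, ih, NN_zero, Function.iterate_succ_apply']

theorem iter_mem {A : V n →L[ℝ] V n} {b : ℕ} {W : Submodule ℝ (V n)} {w₀ : V n}
    {𝒮 : V j →L[ℝ] (V n →L[ℝ] V n)} (h : Res A b j W w₀ 𝒮) (i : ℕ) : A^[i] w₀ ∈ W := by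
  induction i with
  | zero => exact h.w₀_mem
  | succ i ih => rw [Function.iterate_succ_apply']; exact h.maps _ ih

theorem It'_zero {R : V n → V n} {b : ℕ} {W : Submodule ℝ (V n)} {w₀ : V n}
    {𝒮 : V j →L[ℝ] (V n →L[ℝ] V n)} (h : Res (fderiv ℝ R 0) b j W w₀ 𝒮) (i : ℕ) (a : V n)
    (η : V j) : It' (NN R 𝒮) (NN' R 𝒮) i 0 (w₀, 0) (a, η) =
      ((fderiv ℝ R 0)^[i] a + (i : ℝ) • 𝒮 η ((fderiv ℝ R 0)^[i] w₀), η) := by
  induction i with
  | zero => simp [It']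
  | succ i ih =>
    have e : It' (NN R 𝒮) (NN' R 𝒮) (i + 1) 0 (w₀, 0) (a, η) =
        NN' R 𝒮 0 (It (NN R 𝒮) i 0 (w₀, 0)) (It' (NN R 𝒮) (NN' R 𝒮) i 0 (w₀, 0) (a, η)) := rfl
    rw [e, ih, It_zero, NN'_zero]
    congr 1
    rw [Function.iterate_succ_apply', Function.iterate_succ_apply', map_add, map_add, map_smul,
      h.Scomm η _ (iter_mem h i)]
    push_cast
    rw [add_smul, one_smul, add_assoc]

theorem It_scale (R : V n → V n) (𝒮 : V j →L[ℝ] (V n →L[ℝ] V n)) {ρ : ℝ} (hρ : ρ ≠ 0)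
    (v : V n) (ζ : V j) (i : ℕ) :
    (It (NN R 𝒮) i ρ (v, ζ)).2 = ζ ∧
      (fun v => R (v + 𝒮 ζ v))^[i] (ρ • v) = ρ • (It (NN R 𝒮) i ρ (v, ζ)).1 := by
  induction i with
  | zero => exact ⟨rfl, rfl⟩
  | succ i ih =>
    have e : It (NN R 𝒮) (i + 1) ρ (v, ζ) = NN R 𝒮 ρ (It (NN R 𝒮) i ρ (v, ζ)) := by
      simp only [It, Function.iterate_succ_apply']
    obtain ⟨h1, h2⟩ := ih
    refine ⟨?_, ?_⟩
    · rw [e]; exact h1
    · rw [Function.iterate_succ_apply', h2, e]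
      simp only [NN, RR, hρ, if_false, SS, h1]
      rw [smul_smul, mul_inv_cancel₀ hρ, one_smul, smul_add, map_smul]

/-- the embedding of the parameters -/
noncomputable def io (w₀ : V n) (Y : Submodule ℝ (V n)) (p : Y × V j) : V n × V j :=
  (w₀ + (p.1 : V n), p.2)

noncomputable def io' (Y : Submodule ℝ (V n)) : Y × V j →L[ℝ] V n × V j :=
  (Y.subtypeL ∘L ContinuousLinearMap.fst ℝ Y (V j)).prod (ContinuousLinearMap.snd ℝ Y (V j))

theorem io_deriv (w₀ : V n) (Y : Submodule ℝ (V n)) (p : Y × V j) :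
    HasFDerivAt (io (j := j) w₀ Y) (io' Y) p := by
  have h1 : HasFDerivAt (fun p : Y × V j => (p.1 : V n))
      (Y.subtypeL ∘L ContinuousLinearMap.fst ℝ Y (V j)) p :=
    (Y.subtypeL ∘L ContinuousLinearMap.fst ℝ Y (V j)).hasFDerivAt
  exact (h1.const_add w₀).prodMk hasFDerivAt_snd

/-- the equation -/
noncomputable def KK (R : V n → V n) (𝒮 : V j →L[ℝ] (V n →L[ℝ] V n)) (b : ℕ) (w₀ : V n)
    (Y : Submodule ℝ (V n)) (ρ : ℝ) (p : Y × V j) : V n :=
  (It (NN R 𝒮) b ρ (io w₀ Y p)).1 - (w₀ + (p.1 : V n))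

noncomputable def KK' (R : V n → V n) (𝒮 : V j →L[ℝ] (V n →L[ℝ] V n)) (b : ℕ) (w₀ : V n)
    (Y : Submodule ℝ (V n)) (ρ : ℝ) (p : Y × V j) : Y × V j →L[ℝ] V n :=
  (ContinuousLinearMap.fst ℝ (V n) (V j)) ∘L
      ((It' (NN R 𝒮) (NN' R 𝒮) b ρ (io w₀ Y p)) ∘L (io' Y)) -
    Y.subtypeL ∘L ContinuousLinearMap.fst ℝ Y (V j)

theorem main (hNW : S_NW) : S_BIF := by
  intro n R h0 h1 b j W w₀ 𝒮 hR ε hε
  obtain ⟨Y, hY⟩ := Submodule.exists_isCompl W
  have hdim : Module.finrank ℝ (Y × V j) = Module.finrank ℝ (V n) := by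
    have e1 := Submodule.finrank_add_eq_of_isCompl hY
    have e2 := hR.dim
    rw [Module.finrank_prod, finrank_euclideanSpace_fin (𝕜 := ℝ) (n := j)]
    omega
  set A := fderiv ℝ R 0 with hA
  have hz : io (j := j) w₀ Y 0 = (w₀, 0) := by simp [io]
  have hgood := fun i => It_good (fun z => NN_good h0 h1 𝒮 z) (w₀, (0 : V j)) i
  -- the map (ρ, p) ↦ (ρ, io p)
  have hpull : ContinuousAt (fun q : ℝ × (Y × V j) => (q.1, io w₀ Y q.2)) (0, 0) := by
    have : ContinuousAt (io (j := j) w₀ Y) 0 := (io_deriv w₀ Y 0).continuousAt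
    exact continuousAt_fst.prodMk (ContinuousAt.comp_of_eq this continuousAt_snd rfl)
  have hKc : ContinuousAt (fun q : ℝ × (Y × V j) => KK R 𝒮 b w₀ Y q.1 q.2) (0, 0) := by
    have h2 := ContinuousAt.comp_of_eq (hgood b).c0 hpull (by simp [hz])
    have h3 : ContinuousAt (fun q : ℝ × (Y × V j) => w₀ + (q.2.1 : V n)) (0, 0) := by
      fun_prop
    exact (continuous_fst.continuousAt.comp h2).sub h3
  have hK'c : ContinuousAt (fun q : ℝ × (Y × V j) => KK' R 𝒮 b w₀ Y q.1 q.2) (0, 0) := by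
    have h2 := ContinuousAt.comp_of_eq (hgood b).c1 hpull (by simp [hz])
    exact (continuousAt_const.clm_comp (h2.clm_comp continuousAt_const)).sub continuousAt_const
  have hKd : ∀ᶠ q : ℝ × (Y × V j) in 𝓝 (0, 0),
      HasFDerivAt (KK R 𝒮 b w₀ Y q.1) (KK' R 𝒮 b w₀ Y q.1 q.2) q.2 := by
    have hh := hpull.tendsto
    simp only [hz] at hh
    filter_upwards [hh.eventually (hgood b).d] with q hq
    have h3 := hq.comp q.2 (io_deriv w₀ Y q.2)
    have h4 : HasFDerivAt (fun p : Y × V j => w₀ + (p.1 : V n))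
        (Y.subtypeL ∘L ContinuousLinearMap.fst ℝ Y (V j)) q.2 :=
      ((Y.subtypeL ∘L ContinuousLinearMap.fst ℝ Y (V j)).hasFDerivAt).const_add w₀
    exact (hasFDerivAt_fst.comp q.2 h3).sub h4
  -- the derivative at the base point
  set L : Y × V j →L[ℝ] V n := KK' R 𝒮 b w₀ Y 0 0 with hL
  have hLv : ∀ (y : Y) (η : V j), L (y, η) = (A^[b] (y : V n) - y) + (b : ℝ) • 𝒮 η w₀ := by
    intro y η
    have e1 : L (y, η) = (It' (NN R 𝒮) (NN' R 𝒮) b 0 (w₀, 0) ((y : V n), η)).1 - (y : V n) := by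
      rw [hL, KK', hz]
      rfl
    rw [e1, It'_zero hR, hR.pow w₀ hR.w₀_mem]
    simp only
    abel
  have hb0 : (b : ℝ) ≠ 0 := by
    have := hR.b1
    positivity
  have hLker : LinearMap.ker (L : (Y × V j) →ₗ[ℝ] V n) = ⊥ := by
    rw [LinearMap.ker_eq_bot']
    rintro ⟨y, η⟩ hyη
    have e1 : L (y, η) = 0 := hyη
    rw [hLv] at e1
    have e2 : A^[b] (y : V n) - y ∈ W := by
      have : A^[b] (y : V n) - y = - ((b : ℝ) • 𝒮 η w₀) := eq_neg_of_add_eq_zero_left e1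
      rw [this]
      exact W.neg_mem (W.smul_mem _ (hR.Smaps η _ hR.w₀_mem))
    have e3 := hR.quot _ e2
    have e4 : (y : V n) = 0 := by
      have := (Submodule.disjoint_def.1 hY.disjoint) _ e3 y.2
      exact this
    have e5 : (b : ℝ) • 𝒮 η w₀ = 0 := by
      rw [e4] at e1
      have e6 : A^[b] (0 : V n) = 0 := by
        have : A^[b] (0 : V n) = 0 := Function.iterate_fixed (map_zero A) b
        exact this
      rw [e6] at e1
      simpa using e1
    have e7 := hR.Sinj η ((smul_eq_zero.1 e5).resolve_left hb0)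
    rw [e7]
    have e8 : y = 0 := Subtype.ext e4
    rw [e8]
    rfl
  -- bounds for the iterates
  obtain ⟨C, hC⟩ : ∃ C : ℝ, ∀ i ≤ b, ‖(It (NN R 𝒮) i 0 (w₀, 0)).1‖ ≤ C := by
    have hfin : (Set.Iic b).Finite := Set.finite_Iic b
    obtain ⟨C, hC⟩ := (hfin.image fun i => ‖(It (NN R 𝒮) i 0 (w₀, 0)).1‖).bddAbove
    exact ⟨C, fun i hi => hC ⟨i, hi, rfl⟩⟩
  have hC0 : 0 ≤ C := (norm_nonneg _).trans (hC 0 (Nat.zero_le _))
  have hbd : ∀ᶠ q : ℝ × (Y × V j) in 𝓝 (0, 0), ∀ i ≤ b,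
      ‖(It (NN R 𝒮) i q.1 (io w₀ Y q.2)).1‖ < C + 1 := by
    have : ∀ i ∈ Set.Iic b, ∀ᶠ q : ℝ × (Y × V j) in 𝓝 (0, 0),
        ‖(It (NN R 𝒮) i q.1 (io w₀ Y q.2)).1‖ < C + 1 := by
      intro i hi
      have h2 := ContinuousAt.comp_of_eq (hgood i).c0 hpull (by simp [hz])
      have h3 : ContinuousAt (fun q : ℝ × (Y × V j) =>
          ‖(It (NN R 𝒮) i q.1 (io w₀ Y q.2)).1‖) (0, 0) :=
        (continuous_fst.continuousAt.comp h2).norm
      have h4 : (fun q : ℝ × (Y × V j) =>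
          ‖(It (NN R 𝒮) i q.1 (io w₀ Y q.2)).1‖) (0, 0) < C + 1 := by
        simp only [hz]
        have := hC i hi
        linarith
      exact h3.eventually_lt continuousAt_const h4
    have := (Set.finite_Iic b).eventually_all.2 this
    exact this
  have e0 : KK R 𝒮 b w₀ Y 0 0 = 0 := by
    rw [KK, hz, It_zero, hR.pow w₀ hR.w₀_mem]
    simp
  set ε' : ℝ := min ε (ε / (C + 1)) with hε'
  have hε'0 : 0 < ε' := lt_min hε (by positivity)
  obtain ⟨ρ, ⟨y, ζ⟩, hρ0, hρε, hx, hzero, hbnd⟩ := final hNW hdim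
    (K := KK R 𝒮 b w₀ Y) (K' := KK' R 𝒮 b w₀ Y) ⟨hKc, hK'c, hKd⟩ e0 hLker
    (P := fun ρ p => ∀ i ≤ b, ‖(It (NN R 𝒮) i ρ (io w₀ Y p)).1‖ < C + 1) hbd hε'0
  have hzero2 : (It (NN R 𝒮) b ρ (w₀ + (y : V n), ζ)).1 = w₀ + (y : V n) := by
    have : KK R 𝒮 b w₀ Y ρ (y, ζ) = 0 := hzero
    rw [KK, sub_eq_zero] at this
    exact this
  refine ⟨ζ, ρ • (w₀ + (y : V n)), ?_, ?_, ?_, ?_⟩
  · have h2 : ‖ζ‖ ≤ ‖((y, ζ) : Y × V j)‖ := norm_snd_le ((y, ζ) : Y × V j)
    exact (h2.trans_lt hx).trans_le (min_le_left _ _)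
  · rw [Ne, smul_eq_zero, not_or]
    refine ⟨hρ0.ne', ?_⟩
    intro h2
    apply hR.w₀_ne
    have h3 : w₀ = - (y : V n) := eq_neg_of_add_eq_zero_left h2
    have h4 : w₀ ∈ Y := by rw [h3]; exact Y.neg_mem y.2
    exact (Submodule.disjoint_def.1 hY.disjoint) _ hR.w₀_mem h4
  · intro i hi
    rw [(It_scale R 𝒮 hρ0.ne' (w₀ + (y : V n)) ζ i).2, norm_smul, Real.norm_eq_abs,
      abs_of_pos hρ0]
    have h3 : ‖(It (NN R 𝒮) i ρ (w₀ + (y : V n), ζ)).1‖ < C + 1 := hbnd i hi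
    have h5 : ρ * (C + 1) < ε := by
      have := hρε.trans_le (min_le_right _ _)
      rwa [lt_div_iff₀ (by linarith)] at this
    exact (mul_le_mul_of_nonneg_left h3.le hρ0.le).trans_lt h5
  · rw [(It_scale R 𝒮 hρ0.ne' (w₀ + (y : V n)) ζ b).2, hzero2]

end main

end Pool.Agent.Y329.CO.BIF
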